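import Mathlib
import Pool.Agent.W2helper31.GP.Core3
import Pool.Agent.W2helper24.GP.KAP
import Pool.Agent.W2helper2.GP.SCAL
import Pool.Agent.W2helper11.GP.MARG
import Pool.Agent.W2helper20.GP.Rep
import Pool.Agent.W2helper77.GP.Mom
import Pool.Agent.W2helper69.GP.Kap2
import Pool.Agent.W2helper88.GP.RMom
import Pool.Agent.W2helper19.GP.IND
import Pool.Agent.W2helper15.GP.Kapr
import Pool.Agent.W2helper81.GP.QUAD
import Pool.Agent.W2helper71.GP.QUAD2
import Pool.Agent.W2helper11.GP.SER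
import Pool.Agent.W2helper11.GP.CONV

set_option autoImplicit false

/-!
# MP_130bb2_pr: the Gaussian product inequality for vectors whose covariance matrix has small rank

For every centered Gaussian law on `ℝ ^ d` with covariance matrix of rank at most `r`, and all real
exponents `ν i ≥ 0` with `4 (r - 1) ν i ≤ ∑ j, ν j` for every `i`, the Gaussian product inequality
holds.
-/

open MeasureTheory ProbabilityTheory

namespace Pool.Agent.Results.MP_130bb2_pr.LowRankCovariance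

theorem result :
    ∀ (d r : ℕ) (μ : Measure (Fin d → ℝ)), IsGaussian μ → ∫ x, x ∂μ = 0 →
      (Matrix.of fun i k : Fin d => ∫ x, x i * x k ∂μ).rank ≤ r →
      ∀ ν : Fin d → ℝ, (∀ i, 0 ≤ ν i) → (∀ i, 4 * ((r : ℝ) - 1) * ν i ≤ ∑ j, ν j) →
        ∏ i, ∫ x, |x i| ^ (2 * ν i) ∂μ ≤ ∫ x, ∏ i, |x i| ^ (2 * ν i) ∂μ := by
  intro d r μ hμ h0 hr ν hν h
  exact Pool.Agent.W2helper31.GP.final3 Pool.Agent.W2helper2.GP.p_SCAL
    Pool.Agent.W2helper11.GP.p_MARG Pool.Agent.W2helper24.GP.p_KAP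
    Pool.Agent.W2helper77.GP.p_MOM Pool.Agent.W2helper69.GP.p_kap2
    Pool.Agent.W2helper88.GP.p_RMOM Pool.Agent.W2helper19.GP.p_IND
    Pool.Agent.W2helper15.GP.p_KAPR Pool.Agent.W2helper11.GP.p_SER
    Pool.Agent.W2helper11.GP.p_CONV Pool.Agent.W2helper81.GP.QUAD_ok
    Pool.Agent.W2helper71.GP.p_QUAD2
    Pool.Agent.W2helper20.GP.p_rep d r μ hμ h0 hr ν hν h

end Pool.Agent.Results.MP_130bb2_pr.LowRankCovariance
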