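import Mathlib
import Pool.Agent.W2helper31.GP.Core4
import Pool.Agent.W2helper31.GP.Core5
import Pool.Agent.W2helper24.GP.KAP
import Pool.Agent.W2helper2.GP.SCAL
import Pool.Agent.W2helper11.GP.MARG
import Pool.Agent.W2helper20.GP.Rep
import Pool.Agent.W2helper77.GP.Mom
import Pool.Agent.W2helper69.GP.Kap2
import Pool.Agent.W2helper88.GP.RMom
import Pool.Agent.W2helper19.GP.IND
import Pool.Agent.W2helper15.GP.Kapr
import Pool.Agent.W2helper81.GP.QUAD
import Pool.Agent.W2helper71.GP.QUAD2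
import Pool.Agent.W2helper11.GP.SER
import Pool.Agent.W2helper11.GP.CONV
import Pool.Agent.W2helper31.GP.RotB
import Pool.Agent.W2helper52.GP.Alg
import Pool.Agent.W2helper71.GP.Ang
import Pool.Agent.W2helper54.GP5.Fc
import Pool.Agent.W2helper81.GP5.Fc0
import Pool.Agent.W2helper11.GP5.Alg3
import Pool.Agent.W2helper88.GP5.Ang2
import Pool.Agent.W2helper52.GP5.Gam3
import Pool.Agent.W2helper2.GP5.Tan
import Pool.Agent.W2helper45.GP5.Two
import Pool.Agent.W2helper99.GP5.Trig3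

set_option autoImplicit false

/-!
# MP_130bb2_pr: the Gaussian product inequality for covariance matrices of rank two, equal exponents

For every centered Gaussian law on `ℝ ^ d` with covariance matrix of rank at most `2` and all
exponents equal to a real `ν ≥ 0`, the Gaussian product inequality holds.
-/

open MeasureTheory ProbabilityTheory

namespace Pool.Agent.Results.MP_130bb2_pr.PlanarAllExponents

theorem result :
    ∀ (d : ℕ) (μ : Measure (Fin d → ℝ)), IsGaussian μ → ∫ x, x ∂μ = 0 →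
      (Matrix.of fun i k : Fin d => ∫ x, x i * x k ∂μ).rank ≤ 2 →
      ∀ ν : ℝ, 0 ≤ ν →
        ∏ i : Fin d, ∫ x, |x i| ^ (2 * ν) ∂μ ≤ ∫ x, ∏ i : Fin d, |x i| ^ (2 * ν) ∂μ := by
  intro d μ hμ h0 hr ν hν
  rcases le_total (1 / 2) ν with h | h
  · exact Pool.Agent.W2helper31.GP.final4 Pool.Agent.W2helper2.GP.p_SCAL
      Pool.Agent.W2helper11.GP.p_MARG Pool.Agent.W2helper24.GP.p_KAP
      Pool.Agent.W2helper77.GP.p_MOM
      Pool.Agent.W2helper88.GP.p_RMOM Pool.Agent.W2helper19.GP.p_IND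
      Pool.Agent.W2helper31.GP.rotB Pool.Agent.W2helper52.GP.p_ALG
      Pool.Agent.W2helper71.GP.p_ang
      Pool.Agent.W2helper20.GP.p_rep d μ hμ h0 hr ν h
  rcases Nat.lt_or_ge d 4 with hd | hd
  · exact Pool.Agent.W2helper31.GP.final5 Pool.Agent.W2helper2.GP.p_SCAL
      Pool.Agent.W2helper11.GP.p_MARG Pool.Agent.W2helper77.GP.p_MOM
      Pool.Agent.W2helper88.GP.p_RMOM Pool.Agent.W2helper19.GP.p_IND
      Pool.Agent.W2helper88.GP5.p_ang2 Pool.Agent.W2helper52.GP5.p_gam3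
      (Pool.Agent.W2helper99.GP5.p_trig3 Pool.Agent.W2helper81.GP5.p_fc0
        Pool.Agent.W2helper54.GP5.p_fc Pool.Agent.W2helper11.GP5.p_alg3
        Pool.Agent.W2helper2.GP5.p_tan)
      Pool.Agent.W2helper45.GP5.p_two Pool.Agent.W2helper20.GP.p_rep d hd μ hμ h0 hr ν hν h
  · refine Pool.Agent.W2helper31.GP.final3 Pool.Agent.W2helper2.GP.p_SCAL
      Pool.Agent.W2helper11.GP.p_MARG Pool.Agent.W2helper24.GP.p_KAP
      Pool.Agent.W2helper77.GP.p_MOM Pool.Agent.W2helper69.GP.p_kap2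
      Pool.Agent.W2helper88.GP.p_RMOM Pool.Agent.W2helper19.GP.p_IND
      Pool.Agent.W2helper15.GP.p_KAPR Pool.Agent.W2helper11.GP.p_SER
      Pool.Agent.W2helper11.GP.p_CONV Pool.Agent.W2helper81.GP.QUAD_ok
      Pool.Agent.W2helper71.GP.p_QUAD2
      Pool.Agent.W2helper20.GP.p_rep d 2 μ hμ h0 hr (fun _ => ν) (fun _ => hν) (fun _ => ?_)
    have h4 : (4 : ℝ) ≤ d := by exact_mod_cast hd
    rw [Finset.sum_const, Finset.card_univ, Fintype.card_fin, nsmul_eq_mul]
    push_cast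
    nlinarith

end Pool.Agent.Results.MP_130bb2_pr.PlanarAllExponents
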